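import Pool.Agent.Lib.MP_4fbe7c_an.FC.Iface
import Pool.Agent.Lib.MP_4fbe7c_an.SD.Logg

/-!
Module EXB (helper9): extinction of the fast species, `m > 0` of class `C^1`, one threshold for all
small rates of the slowest species.
-/

set_option autoImplicit false

open Set MeasureTheory

namespace Pool.Agent.Lib.MP_4fbe7c_an.FC.H9

open Pool.Agent.Lib.MP_4fbe7c_an.SD Pool.Agent.Lib.MP_4fbe7c_an.FC

/-- The elementary inequality behind the choice of the function `F`. -/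
theorem mul_le_young {L P q r s : ℝ} (hL : 0 < L) (hq : 0 < q) (hs : |s| ≤ P) :
    r * s ≤ q / (8 * L) + 2 * P ^ 2 * L / q * r ^ 2 := by
  have h1 : r * s ≤ |r| * P := by
    calc r * s ≤ |r * s| := le_abs_self _
      _ = |r| * |s| := abs_mul _ _
      _ ≤ |r| * P := mul_le_mul_of_nonneg_left hs (abs_nonneg _)
  have h2 : q / (8 * L) + 2 * P ^ 2 * L / q * r ^ 2 - |r| * P =
      (q - 4 * P * L * |r|) ^ 2 / (8 * q * L) := by
    rw [← sq_abs r]
    field_simp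
    ring
  have h3 : 0 ≤ (q - 4 * P * L * |r|) ^ 2 / (8 * q * L) := by positivity
  linarith

theorem exb (hPsi : PsiStatement) (hMass : MassStatement) (hSup : SupBStatement)
    (hY : YBdStatement) (hVfn : VfnStatement) (hCore : CoreStatement) (hExs : ExSStatement) :
    ExBStatement := by
  intro L M m m' hL hdm hcm' hnc hM hM0 hpos
  have hm : ContinuousOn m (Icc 0 L) := hdm.continuousOn
  obtain ⟨P, q, ψ, ψ', ψ'', Ψ, Ψ', hP, hq, hT⟩ := hPsi L m hL hm hnc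
  obtain ⟨x₀, hx₀, hmin⟩ := isCompact_Icc.exists_isMinOn (nonempty_Icc.2 hL.le) hm
  obtain ⟨m₀, hm₀⟩ : ∃ m₀, m₀ = m x₀ := ⟨_, rfl⟩
  have hm₀0 : 0 < m₀ := by rw [hm₀]; exact hpos x₀ hx₀
  have hm₀le : ∀ x ∈ Icc 0 L, m₀ ≤ m x := fun x hx => by rw [hm₀]; exact hmin hx
  obtain ⟨Λ, hΛ⟩ : ∃ Λ, Λ = (∫ x in (0)..L, m' x ^ 2) + 1 := ⟨_, rfl⟩
  have hint0 : 0 ≤ ∫ x in (0)..L, m' x ^ 2 :=
    intervalIntegral.integral_nonneg hL.le fun x _ => sq_nonneg _
  have hΛ0 : 0 < Λ := by rw [hΛ]; linarith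
  have hΛle : ∫ x in (0)..L, m' x ^ 2 ≤ Λ := by rw [hΛ]; linarith
  obtain ⟨a, ha⟩ : ∃ a, a = q ^ 2 * m₀ / (16 * P ^ 2 * L * Λ) := ⟨_, rfl⟩
  have ha0 : 0 < a := by rw [ha]; positivity
  obtain ⟨A₁, hA₁⟩ : ∃ A₁, A₁ = 4 * P * (2 * M ^ 2 * L + a * (Λ / m₀)) / q := ⟨_, rfl⟩
  obtain ⟨A₂, hA₂⟩ : ∃ A₂, A₂ = 8 * L ^ 2 * (Λ / m₀) *
    (4 * P ^ 2 * (M + 1) ^ 2 * L ^ 3 / q) / q := ⟨_, rfl⟩
  have hA₁0 : 0 ≤ A₁ := by rw [hA₁]; positivity
  have hA₂0 : 0 ≤ A₂ := by rw [hA₂]; positivity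
  have hD0 : 0 < 1 + A₁ + A₂ := by positivity
  refine ⟨a, 1 + A₁ + A₂, ha0, hD0, ?_⟩
  intro N d u v w i₀ j S θ θ' θ'' hC hθ hda hiS hS hSp hSn hj hdj
  have hdi : 0 < d i₀ := hC.hd i₀
  have hpi : Pres L u i₀ := (hSp i₀ hiS).1
  obtain ⟨ρ, hρ⟩ : ∃ ρ, ρ = d i₀ * (Λ / m₀) := ⟨_, rfl⟩
  have hρ0 : 0 ≤ ρ := by rw [hρ]; positivity
  obtain ⟨κ, hκ⟩ : ∃ κ, κ = 2 * P ^ 2 * L / q := ⟨_, rfl⟩
  have hκ0 : 0 < κ := by rw [hκ]; positivity
  have hκρ : κ * ρ ≤ q / 8 := by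
    have h1 : κ * ρ ≤ κ * (a * (Λ / m₀)) := by
      rw [hρ]
      exact mul_le_mul_of_nonneg_left (mul_le_mul_of_nonneg_right hda (by positivity)) hκ0.le
    have h2 : κ * (a * (Λ / m₀)) = q / 8 := by
      rw [hκ, ha]
      field_simp
      ring
    linarith
  obtain ⟨hmass0, T₁, hT₁, hmass⟩ := hMass L M m N d u v w hC
  obtain ⟨T₂, hT₂, hsup⟩ := hSup L M m N d u v w hC
  obtain ⟨E, E', K₁, T₃, hT₃, hE⟩ := hVfn L M m₀ Λ m m' θ θ' θ'' N d u v w i₀ hC hm₀0 hdm hcm'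
    hm₀le hΛle hθ hpi
  obtain ⟨K₂, T₄, hT₄, hy₂⟩ := hY L M m N d u v w j hC hj
  set T : ℝ := max (max T₁ T₂) (max T₃ T₄) with hTdef
  have hT1 : T₁ ≤ T := (le_max_left _ _).trans (le_max_left _ _)
  have hT2 : T₂ ≤ T := (le_max_right _ _).trans (le_max_left _ _)
  have hT3 : T₃ ≤ T := (le_max_left _ _).trans (le_max_right _ _)
  have hT4 : T₄ ≤ T := (le_max_right _ _).trans (le_max_right _ _)
  have hT0 : 0 < T := lt_of_lt_of_le hT₁ hT1
  obtain ⟨c, C, hc, hlg⟩ := hCore L M P q ρ 0 (1 + A₁ + A₂) K₁ (κ * K₁) T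
    m ψ ψ' ψ'' Ψ Ψ' N d u v w i₀ j S E E' (fun t => -κ * E t) (fun t => -κ * E' t)
    hC hT hP hq hρ0 le_rfl hD0 hT0 hiS hS hSp hSn hj hdj
    (by
      have h1 : q * A₁ = 4 * P * (2 * M ^ 2 * L + a * (Λ / m₀)) := by
        rw [hA₁]; field_simp
      have h2 : ρ ≤ a * (Λ / m₀) := by
        rw [hρ]; exact mul_le_mul_of_nonneg_right hda (by positivity)
      have h3 : 4 * P * (2 * M ^ 2 * L + ρ) ≤ q * A₁ := by
        rw [h1]
        exact mul_le_mul_of_nonneg_left (by linarith) (by positivity)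
      refine h3.trans (mul_le_mul_of_nonneg_left (by linarith) hq.le))
    (by
      have e : 8 * L ^ 2 * ρ * (0 + 4 * P ^ 2 * (M + 1) ^ 2 * L ^ 3 / q) = d i₀ * q * A₂ := by
        rw [hA₂, hρ]; field_simp; ring
      rw [e]
      exact mul_le_mul_of_nonneg_left (by linarith) (by positivity))
    (fun t ht => (hmass t (hT1.trans ht)).1)
    (fun t ht x hx k => hsup t (hT2.trans ht) x hx k)
    (fun t ht => by
      obtain ⟨I', hI1, hI2, -⟩ := (hmass t (hT1.trans ht)).2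
      exact ⟨I', hI1, hI2⟩)
    (fun t ht => by
      have h := hE t (hT3.trans ht)
      rw [← hρ] at h
      exact h)
    (fun t ht => by
      have ht0 : 0 < t := lt_of_lt_of_le hT0 ht
      obtain ⟨h1, h2, h3⟩ := hE t (hT3.trans ht)
      rw [← hρ] at h2
      have cR : ContinuousOn (fun x => m x - ∑ k, u k t x) (Icc 0 L) :=
        slice (g := fun t x => m x - ∑ k, u k t x)
          ((hC.sol.cont_rate_log hC.hm).mono (prod_mono Ioi_subset_Ici_self subset_rfl))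
          (mem_Ioi.2 ht0)
      have cψ : ContinuousOn ψ (Icc 0 L) := hT.d1.continuousOn
      have i1 : IntervalIntegrable (fun x => (m x - ∑ k, u k t x) * ψ x) volume 0 L :=
        (cR.mul cψ).intervalIntegrable_of_Icc hL.le
      have i2 : IntervalIntegrable (fun x => (m x - ∑ k, u k t x) ^ 2) volume 0 L :=
        (cR.pow 2).intervalIntegrable_of_Icc hL.le
      have i3 : IntervalIntegrable (fun _ : ℝ => q / (8 * L)) volume 0 L :=
        intervalIntegrable_const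
      have h4 : ∫ x in (0)..L, (m x - ∑ k, u k t x) * ψ x ≤
          ∫ x in (0)..L, (q / (8 * L) + κ * (m x - ∑ k, u k t x) ^ 2) := by
        refine intervalIntegral.integral_mono_on hL.le i1 (i3.add (i2.const_mul _))
          fun x hx => ?_
        rw [hκ]
        exact mul_le_young hL hq (hT.bd x hx).1
      have h5 : ∫ x in (0)..L, (q / (8 * L) + κ * (m x - ∑ k, u k t x) ^ 2) =
          q / 8 + κ * R2 L m u t := by
        rw [intervalIntegral.integral_add i3 (i2.const_mul _),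
          intervalIntegral.integral_const_mul, intervalIntegral.integral_const, sub_zero,
          smul_eq_mul]
        unfold R2
        congr 1
        field_simp
      refine ⟨h1.const_mul (-κ), ?_, ?_⟩
      · have h6 : κ * R2 L m u t ≤ κ * (-E' t + ρ) := mul_le_mul_of_nonneg_left h2 hκ0.le
        have h7 : κ * (-E' t + ρ) = -κ * E' t + κ * ρ := by ring
        rw [h5] at h4
        linarith
      · have h8 : κ * (-K₁) ≤ κ * E t := mul_le_mul_of_nonneg_left h3 hκ0.le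
        simp only [neg_mul]
        linarith)
  exact hExs L M c C K₂ T m N d u v w j hC hj hT0 hc (fun t ht => hy₂ t (hT4.trans ht)) hlg

end Pool.Agent.Lib.MP_4fbe7c_an.FC.H9
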