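import Pool.Agent.Lib.MP_4fbe7c_an.FC.Iface
import Pool.Agent.Lib.MP_4fbe7c_an.SD.Logg

/-!
Module LGD (helper9): the time derivative of `∫ log u_i`.
-/

set_option autoImplicit false

open Set Filter Topology MeasureTheory intervalIntegral
open scoped Interval

namespace Pool.Agent.Lib.MP_4fbe7c_an.FC.H9

open Pool.Agent.Lib.MP_4fbe7c_an.SD

theorem lgd : LgdStatement := by
  intro L M m N d u v w i hc hp t t0
  have hL := hc.hL
  have hS := hc.sol
  have cu : ContinuousOn (fun p : ℝ × ℝ => u i p.1 p.2) (Ioi 0 ×ˢ Icc 0 L) := hS.cuIoi_log i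
  have hne : ∀ p ∈ (Ioi (0 : ℝ) ×ˢ Icc (0 : ℝ) L), u i p.1 p.2 ≠ 0 :=
    fun p hp' => (hp p.1 hp'.1 p.2 hp'.2).ne'
  have cR : ContinuousOn (fun p : ℝ × ℝ => m p.2 - ∑ j, u j p.1 p.2) (Ioi 0 ×ˢ Icc 0 L) :=
    (hS.cont_rate_log hc.hm).mono (prod_mono Ioi_subset_Ici_self subset_rfl)
  have ch : ContinuousOn (fun p : ℝ × ℝ => Real.log (u i p.1 p.2)) (Ioi 0 ×ˢ Icc 0 L) :=
    cu.log hne
  have ch1 : ContinuousOn (fun p : ℝ × ℝ => v i p.1 p.2 / u i p.1 p.2) (Ioi 0 ×ˢ Icc 0 L) :=
    (hS.cv i).div cu hne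
  have ch2 : ContinuousOn (fun p : ℝ × ℝ => w i p.1 p.2 / u i p.1 p.2 -
      (v i p.1 p.2 / u i p.1 p.2) ^ 2) (Ioi 0 ×ˢ Icc 0 L) :=
    ((hS.cw i).div cu hne).sub (ch1.pow 2)
  have cht : ContinuousOn (fun p : ℝ × ℝ => (d i * w i p.1 p.2 +
      u i p.1 p.2 * (m p.2 - ∑ j, u j p.1 p.2)) / u i p.1 p.2) (Ioi 0 ×ˢ Icc 0 L) :=
    ((continuousOn_const.mul (hS.cw i)).add (cu.mul cR)).div cu hne
  have hd2 : DerivOn L (fun x => v i t x / u i t x)
      (fun x => w i t x / u i t x - (v i t x / u i t x) ^ 2) := fun x hx => by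
    have e := (hS.dxx i t t0 x hx).div (hS.dx i t t0 x hx) (hp t t0 x hx).ne'
    have hu := (hp t t0 x hx).ne'
    have e2 : (w i t x * u i t x - v i t x * v i t x) / u i t x ^ 2 =
        w i t x / u i t x - (v i t x / u i t x) ^ 2 := by
      field_simp
    rw [e2] at e
    exact e
  have hder := hasDerivAt_integral hL (g := fun s x => Real.log (u i s x))
    (gt := fun s x => (d i * w i s x + u i s x * (m x - ∑ j, u j s x)) / u i s x)
    ch cht (fun s hs x hx => (hS.dt i s hs x hx).log (hp s hs x hx).ne') t t0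
  -- the functions at time `t`
  have c1 : ContinuousOn (fun x => v i t x / u i t x) (Icc 0 L) :=
    slice (g := fun t x => v i t x / u i t x) ch1 (mem_Ioi.2 t0)
  have c2 : ContinuousOn (fun x => w i t x / u i t x - (v i t x / u i t x) ^ 2) (Icc 0 L) :=
    slice (g := fun t x => w i t x / u i t x - (v i t x / u i t x) ^ 2) ch2 (mem_Ioi.2 t0)
  have c4 : ContinuousOn (fun x => m x - ∑ j, u j t x) (Icc 0 L) :=
    slice (g := fun t x => m x - ∑ j, u j t x) cR (mem_Ioi.2 t0)
  have h0 : ∫ x in (0)..L, (w i t x / u i t x - (v i t x / u i t x) ^ 2) = 0 := by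
    rw [integral_deriv hL hd2 c2, hS.b0 i t t0, hS.bL i t t0]
    simp
  have i1 : IntervalIntegrable (fun x => (v i t x / u i t x) ^ 2) volume 0 L :=
    (c1.pow 2).intervalIntegrable_of_Icc hL.le
  have i2 : IntervalIntegrable (fun x => w i t x / u i t x - (v i t x / u i t x) ^ 2)
      volume 0 L := c2.intervalIntegrable_of_Icc hL.le
  have iR : IntervalIntegrable (fun x => m x - ∑ j, u j t x) volume 0 L :=
    c4.intervalIntegrable_of_Icc hL.le
  have e1 : ∫ x in (0)..L, (d i * w i t x + u i t x * (m x - ∑ j, u j t x)) / u i t x =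
      ∫ x in (0)..L, (d i * (w i t x / u i t x - (v i t x / u i t x) ^ 2) +
        d i * (v i t x / u i t x) ^ 2 + (m x - ∑ j, u j t x)) := by
    refine intervalIntegral.integral_congr fun x hx => ?_
    rw [uIcc_of_le hL.le] at hx
    have hu := (hp t t0 x hx).ne'
    show (d i * w i t x + u i t x * (m x - ∑ j, u j t x)) / u i t x = _
    field_simp
    ring
  have e2 : ∫ x in (0)..L, (d i * (w i t x / u i t x - (v i t x / u i t x) ^ 2) +
        d i * (v i t x / u i t x) ^ 2 + (m x - ∑ j, u j t x)) =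
      d i * yy L u v i t + R1 L m u t := by
    rw [intervalIntegral.integral_add ((i2.const_mul _).add (i1.const_mul _)) iR,
      intervalIntegral.integral_add (i2.const_mul _) (i1.const_mul _),
      intervalIntegral.integral_const_mul, intervalIntegral.integral_const_mul, h0]
    unfold yy R1
    ring
  rw [← e2, ← e1]
  exact hder

end Pool.Agent.Lib.MP_4fbe7c_an.FC.H9
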